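import Mathlib

/-!
# Points of the multigraded Hilbert functor: definitions
-/

set_option autoImplicit false

open MvPolynomial

universe u

namespace Pool.Agent.Lib.MP_94ed3e_ag

section Definitions

/-- For an ideal `I` of `R[x_i : i ∈ σ]` and a degree `a`, this is the `R`-module `(S_R / I)_a`:
the module of polynomials all of whose monomials have degree `a` (for the grading in which
`x_i` has degree `w i`), modulo those that lie in `I`. -/
abbrev GradedPiece {σ A : Type*} [AddCommGroup A] {R : Type*} [CommRing R] (w : σ → A)
    (I : Ideal (MvPolynomial σ R)) (a : A) : Type _ :=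
  weightedHomogeneousSubmodule R w a ⧸
    (I.restrictScalars R).comap (weightedHomogeneousSubmodule R w a).subtype

/-- An `R`-module is locally free of rank `r`: it is finitely generated and projective, and its
rank at every prime of `R` is `r`. -/
def IsLocallyFreeOfRank (R : Type*) [CommRing R] (M : Type*) [AddCommGroup M] [Module R M]
    (r : ℕ) : Prop :=
  Module.Finite R M ∧ Module.Projective R M ∧
    ∀ p : PrimeSpectrum R, Module.rankAtStalk (R := R) M p = r

/-- `I` is an `R`-point of the multigraded Hilbert functor with Hilbert function `h`: it is a
homogeneous ideal of `R[x_i : i ∈ σ]` and `(S_R / I)_a` is locally free of rank `h a` for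
all `a`. -/
structure IsHilbertPoint {σ A : Type*} [AddCommGroup A] {R : Type*} [CommRing R] (w : σ → A)
    (h : A → ℕ) (I : Ideal (MvPolynomial σ R)) : Prop where
  /-- `I` contains the homogeneous components of its elements. -/
  homogeneous : ∀ p ∈ I, ∀ a : A, weightedHomogeneousComponent w a p ∈ I
  /-- the graded pieces of the quotient are locally free of the prescribed ranks -/
  locallyFree : ∀ a : A, IsLocallyFreeOfRank R (GradedPiece w I a) (h a)

end Definitions

end Pool.Agent.Lib.MP_94ed3e_ag
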