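import Pool.Agent.Lib.MP_94ed3e_ag.General

/-!
# The multigraded Hilbert functor, multigraded Hilbert schemes, fat points, and our example
-/

set_option autoImplicit false

open MvPolynomial

universe u

namespace Pool.Agent.Lib.MP_94ed3e_ag

section FunctorDefinition

open CategoryTheory Opposite AlgebraicGeometry Limits

/-- The multigraded Hilbert functor of `S = k[x_1, ..., x_n]`, with `x_i` of degree `w i` in the
abelian group `A`, and Hilbert function `h : A → ℕ`. It sends a `k`-algebra `R` to the set of
homogeneous ideals `I` of `S ⊗ R = R[x_1, ..., x_n]` such that `(S_R / I)_a` is a locally free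
`R`-module of rank `h a` for every `a`, and a `k`-algebra map `R → R'` to extension of
ideals. -/
noncomputable def hilbertFunctor (k : Type u) [Field k] {n : ℕ} {A : Type} [AddCommGroup A]
    (w : Fin n → A) (h : A → ℕ) : CommAlgCat.{u} k ⥤ Type u where
  obj R := {I : Ideal (MvPolynomial (Fin n) R) // IsHilbertPoint w h I}
  map {R R'} f := TypeCat.ofHom (fun I =>
    ⟨I.1.map (MvPolynomial.map (f.hom : R →+* R')), I.2.map _⟩)
  map_id R := by
    refine ConcreteCategory.hom_ext _ _ fun I => Subtype.ext ?_
    change I.1.map (MvPolynomial.map (RingHom.id R)) = I.1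
    rw [show MvPolynomial.map (RingHom.id R) = RingHom.id (MvPolynomial (Fin n) R) from
      RingHom.ext MvPolynomial.map_id]
    exact Ideal.map_id _
  map_comp {R R' R''} f g := by
    refine ConcreteCategory.hom_ext _ _ fun I => Subtype.ext ?_
    change I.1.map (MvPolynomial.map ((g.hom : R' →+* R'').comp (f.hom : R →+* R'))) =
      (I.1.map (MvPolynomial.map (f.hom : R →+* R'))).map (MvPolynomial.map (g.hom : R' →+* R''))
    rw [Ideal.map_map]
    congr 1
    exact RingHom.ext fun p => (MvPolynomial.map_map _ _ p).symm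

/-- The `k`-scheme `X` is the multigraded Hilbert scheme of `k[x_1, ..., x_n]`, with `x_i` of
degree `w i`, and Hilbert function `h`: it represents the multigraded Hilbert functor on
`k`-algebras. -/
def IsMultigradedHilbertScheme (k : Type u) [Field k] {n : ℕ} {A : Type} [AddCommGroup A]
    (w : Fin n → A) (h : A → ℕ) (X : Over (Spec (CommRingCat.of k))) : Prop :=
  Nonempty ((algSpec (CommRingCat.of k)).rightOp ⋙ yoneda.obj X ≅ hilbertFunctor k w h)

/-- The `k`-scheme `Y` is a fat point: it is isomorphic to `Spec B`, with `B` a local Artinian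
`k`-algebra that is not a field. -/
def IsFatPoint (k : Type u) [Field k] (Y : Over (Spec (CommRingCat.of k))) : Prop :=
  ∃ B : CommAlgCat.{u} k, IsLocalRing B ∧ IsArtinianRing B ∧ ¬ IsField B ∧
    Nonempty (Y ≅ (algSpec (CommRingCat.of k)).obj (op B))

/-- The open subscheme `U` of the scheme `X` is a connected component: a connected
open-and-closed subscheme. -/
def IsConnectedComponent {X : Scheme.{u}} (U : X.Opens) : Prop :=
  IsClosed (U : Set X) ∧ _root_.IsConnected (U : Set X)

/-- The grading of `k[x, y, z]` by `ℤ × ℤ`, with degrees `(1, 0)`, `(0, 1)`, `(1, 1)`. -/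
def wt : Fin 3 → ℤ × ℤ := ![(1, 0), (0, 1), (1, 1)]

/-- The Hilbert function of `k[x, y, z] / (x ^ 2, x * y ^ 2, x * y * z, x * z ^ 2, z ^ 3)`. -/
def hilb (a : ℤ × ℤ) : ℕ :=
  if a.1 = 0 ∧ 0 ≤ a.2 then 1
  else if a.1 = 1 ∧ a.2 = 1 then 2
  else if a.1 = 1 ∧ 0 ≤ a.2 then 1
  else if a.1 = 2 ∧ 1 ≤ a.2 then 1
  else 0

/-- `Spec` of the dual numbers `k[ε]`, `ε ^ 2 = 0`, as a `k`-scheme. -/
noncomputable abbrev specDual (k : Type u) [Field k] : Over (Spec (CommRingCat.of k)) :=
  (algSpec (CommRingCat.of k)).obj (op (CommAlgCat.of k (DualNumber k)))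

end FunctorDefinition

end Pool.Agent.Lib.MP_94ed3e_ag
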