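import Pool.Agent.Lib.MP_94ed3e_ag.Defs

/-!
# General lemmas: base change of Hilbert points, modules of rank one
-/

set_option autoImplicit false

open MvPolynomial

universe u

namespace Pool.Agent.Lib.MP_94ed3e_ag

section General

variable {σ A : Type*} [AddCommGroup A]

/-- the class in the graded piece of the degree a component of a polynomial -/
noncomputable def piece {R : Type*} [CommRing R] (w : σ → A) (I : Ideal (MvPolynomial σ R))
    (a : A) : MvPolynomial σ R →ₗ[R] GradedPiece w I a :=
  (Submodule.mkQ _).comp
    (LinearMap.codRestrict (weightedHomogeneousSubmodule R w a)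
      (weightedHomogeneousComponent w a) (fun p => weightedHomogeneousComponent_mem w p a))

variable {R : Type*} [CommRing R] (w : σ → A) (I : Ideal (MvPolynomial σ R)) (a : A)

lemma piece_mk (p : weightedHomogeneousSubmodule R w a) :
    piece w I a p.1 = Submodule.Quotient.mk p := by
  unfold piece
  simp only [LinearMap.comp_apply, Submodule.mkQ_apply]
  congr 1
  ext1
  simpa using (weightedHomogeneousComponent_eq_self p.2)

lemma piece_surjective : Function.Surjective (piece w I a) := by
  intro q
  obtain ⟨p, rfl⟩ := Submodule.mkQ_surjective _ q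
  exact ⟨p.1, piece_mk w I a p⟩

lemma piece_eq_zero_iff (p : MvPolynomial σ R) :
    piece w I a p = 0 ↔ weightedHomogeneousComponent w a p ∈ I := by
  unfold piece
  simp [Submodule.Quotient.mk_eq_zero]

lemma piece_eq_zero_iff_of_homog {p : MvPolynomial σ R} (hp : IsWeightedHomogeneous w p a) :
    piece w I a p = 0 ↔ p ∈ I := by
  rw [piece_eq_zero_iff, weightedHomogeneousComponent_eq_self hp]

lemma piece_monomial_of_ne {d : σ →₀ ℕ} (hd : Finsupp.weight w d ≠ a) (r : R) :
    piece w I a (monomial d r) = 0 := by
  rw [piece_eq_zero_iff, IsWeightedHomogeneous.weightedHomogeneousComponent_ne (m := Finsupp.weight w d) a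
    (isWeightedHomogeneous_monomial w d r rfl) (Ne.symm hd)]
  exact I.zero_mem

/-- a linear map on the graded piece induced from one on polynomials -/
noncomputable def liftPiece {Q : Type*} [AddCommGroup Q] [Module R Q]
    (G : MvPolynomial σ R →ₗ[R] Q)
    (hG : ∀ p ∈ I, IsWeightedHomogeneous w p a → G p = 0) : GradedPiece w I a →ₗ[R] Q :=
  Submodule.liftQ _ (G.comp (weightedHomogeneousSubmodule R w a).subtype) (by
    rintro ⟨p, hp⟩ hpI
    exact hG p hpI hp)

lemma liftPiece_piece {Q : Type*} [AddCommGroup Q] [Module R Q]
    (G : MvPolynomial σ R →ₗ[R] Q)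
    (hG : ∀ p ∈ I, IsWeightedHomogeneous w p a → G p = 0) (p : MvPolynomial σ R) :
    liftPiece w I a G hG (piece w I a p) = G (weightedHomogeneousComponent w a p) := by
  rfl

variable {R' : Type*} [CommRing R'] [Algebra R R']

lemma component_map (p : MvPolynomial σ R) :
    weightedHomogeneousComponent w a (map (algebraMap R R') p) =
      map (algebraMap R R') (weightedHomogeneousComponent w a p) := by
  classical
  ext d
  rw [coeff_weightedHomogeneousComponent, coeff_map, coeff_map, coeff_weightedHomogeneousComponent]
  split_ifs <;> simp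

/-- induction principle for extended ideals -/
lemma map_ideal_induction {P : MvPolynomial σ R' → Prop} (h0 : P 0)
    (hadd : ∀ x y, P x → P y → P (x + y))
    (hmon : ∀ (r : R') (q : MvPolynomial σ R), q ∈ I → P (C r * map (algebraMap R R') q))
    {x : MvPolynomial σ R'} (hx : x ∈ I.map (map (algebraMap R R'))) : P x := by
  have key : ∀ x ∈ I.map (map (σ := σ) (algebraMap R R')), ∀ s : MvPolynomial σ R', P (s * x) := by
    intro x hx
    refine Submodule.span_induction (p := fun x _ => ∀ s : MvPolynomial σ R', P (s * x)) ?_ ?_ ?_ ?_ hx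
    · rintro _ ⟨p, hp, rfl⟩ s
      induction s using MvPolynomial.induction_on' with
      | monomial e r =>
        have : monomial e r * map (algebraMap R R') p =
            C r * map (algebraMap R R') (monomial e 1 * p) := by
          rw [map_mul, map_monomial, map_one, ← mul_assoc, C_mul_monomial, mul_one]
        rw [this]
        exact hmon r _ (I.mul_mem_left _ hp)
      | add p q hp hq => rw [add_mul]; exact hadd _ _ hp hq
    · intro s; simpa using h0
    · intro x y _ _ hx hy s; rw [mul_add]; exact hadd _ _ (hx s) (hy s)
    · intro a x _ hx s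
      rw [smul_eq_mul, ← mul_assoc]; exact hx _
  simpa using key x hx 1

lemma map_homogeneous (hI : ∀ p ∈ I, ∀ a : A, weightedHomogeneousComponent w a p ∈ I) :
    ∀ p ∈ I.map (map (σ := σ) (algebraMap R R')), ∀ a : A,
      weightedHomogeneousComponent w a p ∈ I.map (map (σ := σ) (algebraMap R R')) := by
  intro p hp a
  refine map_ideal_induction I (P := fun p => weightedHomogeneousComponent w a p ∈
    I.map (map (σ := σ) (algebraMap R R'))) ?_ ?_ ?_ hp
  · simp
  · intro x y hx hy; rw [map_add]; exact Ideal.add_mem _ hx hy
  · intro r q hq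
    rw [weightedHomogeneousComponent_C_mul, component_map]
    exact Ideal.mul_mem_left _ _ (Ideal.mem_map_of_mem _ (hI q hq a))

/-- comparison map between graded pieces -/
noncomputable def comparison : GradedPiece w I a →ₗ[R]
    GradedPiece w (I.map (map (σ := σ) (algebraMap R R'))) a :=
  Submodule.liftQ _
    (((piece w (I.map (map (σ := σ) (algebraMap R R'))) a).restrictScalars R).comp
      ((mapAlgHom (Algebra.ofId R R')).toLinearMap.comp
        (weightedHomogeneousSubmodule R w a).subtype)) (by
    rintro ⟨p, hp⟩ hpI
    simp only [Submodule.mem_comap, Submodule.restrictScalars_mem, Submodule.subtype_apply] at hpI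
    simp only [LinearMap.mem_ker, LinearMap.comp_apply, Submodule.subtype_apply,
      LinearMap.restrictScalars_apply]
    rw [piece_eq_zero_iff]
    change weightedHomogeneousComponent w a (map (algebraMap R R') p) ∈ _
    rw [component_map, weightedHomogeneousComponent_eq_self hp]
    exact Ideal.mem_map_of_mem _ hpI)

lemma piece_component (p : MvPolynomial σ R) :
    piece w I a (weightedHomogeneousComponent w a p) = piece w I a p := by
  rw [← sub_eq_zero, ← map_sub, piece_eq_zero_iff, map_sub,
    weightedHomogeneousComponent_eq_self (weightedHomogeneousComponent_isWeightedHomogeneous a p),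
    sub_self]
  exact I.zero_mem

lemma comparison_piece (p : MvPolynomial σ R) :
    comparison (R' := R') w I a (piece w I a p) =
      piece w (I.map (map (σ := σ) (algebraMap R R'))) a (map (algebraMap R R') p) := by
  rw [← piece_component w _ a (map (algebraMap R R') p), component_map]
  rfl

theorem comparison_isBaseChange
    (hI : ∀ p ∈ I, ∀ a : A, weightedHomogeneousComponent w a p ∈ I) :
    IsBaseChange R' (comparison (R' := R') w I a) := by
  classical
  refine IsBaseChange.of_lift_unique _ ?_
  intro Q _ _ _ _ g
  let : AddCommGroup Q := Module.addCommMonoidToAddCommGroup R' (M := Q)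
  set G : MvPolynomial σ R' →ₗ[R'] Q :=
    (basisMonomials σ R').constr R' (fun d => g (piece w I a (monomial d 1))) with hG
  have G_mon : ∀ d, G (monomial d 1) = g (piece w I a (monomial d 1)) := by
    intro d
    have := (basisMonomials σ R').constr_basis R' (fun d => g (piece w I a (monomial d 1))) d
    rwa [coe_basisMonomials] at this
  have claim1 : ∀ p : MvPolynomial σ R, G (map (algebraMap R R') p) = g (piece w I a p) := by
    intro p
    induction p using MvPolynomial.induction_on' with
    | monomial d r =>
      have h1 : map (algebraMap R R') (monomial d r) =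
          (algebraMap R R' r) • (monomial d 1 : MvPolynomial σ R') := by
        rw [map_monomial, smul_monomial, smul_eq_mul, mul_one]
      have h2 : (monomial d r : MvPolynomial σ R) = r • monomial d 1 := by
        rw [smul_monomial, smul_eq_mul, mul_one]
      rw [h1, map_smul, G_mon, h2, map_smul, map_smul, algebraMap_smul]
    | add p q hp hq => rw [map_add, map_add, hp, hq, map_add, map_add]
  have claim2 : ∀ x ∈ I.map (map (σ := σ) (algebraMap R R')), G x = 0 := by
    intro x hx
    refine map_ideal_induction I (P := fun x => G x = 0) (map_zero _) ?_ ?_ hx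
    · intro x y hx hy; rw [map_add, hx, hy, add_zero]
    · intro r q hq
      rw [C_mul', map_smul, claim1, (piece_eq_zero_iff w I a q).2 (hI q hq a), map_zero, smul_zero]
  refine ⟨liftPiece w _ a G (fun p hp _ => claim2 p hp), ?_, ?_⟩
  · refine LinearMap.ext fun q => ?_
    obtain ⟨p, rfl⟩ := piece_surjective w I a q
    rw [LinearMap.comp_apply, LinearMap.restrictScalars_apply, comparison_piece,
      liftPiece_piece, component_map, claim1, piece_component]
  · intro g'' hg''
    have key : ∀ x : MvPolynomial σ R',
        g'' (piece w (I.map (map (σ := σ) (algebraMap R R'))) a x) = G x := by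
      intro x
      induction x using MvPolynomial.induction_on' with
      | monomial d r =>
        have h1 : (monomial d r : MvPolynomial σ R') = r • map (algebraMap R R') (monomial d 1) := by
          rw [map_monomial, map_one, smul_monomial, smul_eq_mul, mul_one]
        rw [h1, map_smul, map_smul, map_smul, claim1, ← comparison_piece, ← hg'']
        rfl
      | add p q hp hq => rw [map_add, map_add, map_add, hp, hq]
    refine LinearMap.ext fun q => ?_
    obtain ⟨p, rfl⟩ := piece_surjective w _ a q
    rw [liftPiece_piece, ← key, piece_component]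

theorem IsHilbertPoint.map_algebraMap {h : A → ℕ} {I : Ideal (MvPolynomial σ R)}
    (hI : IsHilbertPoint w h I) :
    IsHilbertPoint w h (I.map (map (σ := σ) (algebraMap R R'))) where
  homogeneous := map_homogeneous w I hI.homogeneous
  locallyFree a := by
    have hb := comparison_isBaseChange (R' := R') w I a hI.homogeneous
    obtain ⟨h1, h2, h3⟩ := hI.locallyFree a
    refine ⟨Module.Finite.equiv hb.equiv, Module.Projective.of_equiv hb.equiv, ?_⟩
    intro p
    rw [Module.rankAtStalk_isBaseChange hb, h3]


/-- criterion: a graded piece is isomorphic to the target of a surjective functional -/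
lemma isLocallyFreeOfRank_of_functional {N : Type*} [AddCommGroup N] [Module R N]
    [Module.Free R N] [Module.Finite R N] {r : ℕ} (hr : Nontrivial R → Module.finrank R N = r)
    (G : MvPolynomial σ R →ₗ[R] N)
    (hG : ∀ p, IsWeightedHomogeneous w p a → (G p = 0 ↔ p ∈ I))
    (hs : ∀ n : N, ∃ p, IsWeightedHomogeneous w p a ∧ G p = n) :
    IsLocallyFreeOfRank R (GradedPiece w I a) r := by
  have hG' : ∀ p ∈ I, IsWeightedHomogeneous w p a → G p = 0 := fun p hp hh => (hG p hh).2 hp
  let e : GradedPiece w I a ≃ₗ[R] N := LinearEquiv.ofBijective (liftPiece w I a G hG') (by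
    constructor
    · rw [injective_iff_map_eq_zero]
      intro q hq
      obtain ⟨p, rfl⟩ := piece_surjective w I a q
      rw [liftPiece_piece] at hq
      rw [piece_eq_zero_iff]
      exact (hG _ (weightedHomogeneousComponent_isWeightedHomogeneous a p)).1 hq
    · intro n
      obtain ⟨p, hp, rfl⟩ := hs n
      refine ⟨piece w I a p, ?_⟩
      rw [liftPiece_piece, weightedHomogeneousComponent_eq_self hp])
  refine ⟨Module.Finite.equiv e.symm, Module.Projective.of_equiv e.symm, ?_⟩
  intro p
  have : Nontrivial R := p.nontrivial
  rw [Module.rankAtStalk_eq_of_equiv e, Module.rankAtStalk_eq_finrank_of_free, ← hr this]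
  rfl

/-- Two comparable Hilbert points with the same Hilbert function are equal. -/
lemma eq_of_le_of_isHilbertPoint {h : A → ℕ} {I J : Ideal (MvPolynomial σ R)}
    (hI : IsHilbertPoint w h I) (hJ : IsHilbertPoint w h J) (hle : I ≤ J) : I = J := by
  refine le_antisymm hle ?_
  intro p hp
  have key : ∀ a : A, weightedHomogeneousComponent w a p ∈ I := by
    intro a
    obtain ⟨f1, f2, f3⟩ := hI.locallyFree a
    obtain ⟨g1, g2, g3⟩ := hJ.locallyFree a
    let G : GradedPiece w I a →ₗ[R] GradedPiece w J a :=
      liftPiece w I a (piece w J a) (fun p hp hh => by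
        rw [piece_eq_zero_iff_of_homog w J a hh]; exact hle hp)
    have hG : ∀ p, G (piece w I a p) = piece w J a p := fun p => by
      rw [liftPiece_piece, piece_component]
    have hs : Function.Surjective G := by
      intro q
      obtain ⟨p, rfl⟩ := piece_surjective w J a q
      exact ⟨_, hG p⟩
    have hb := Module.bijective_of_surjective_of_rankAtStalk_eq hs
      (fun m hm => by rw [f3, g3])
    rw [← piece_eq_zero_iff]
    apply hb.1
    rw [hG, map_zero, piece_eq_zero_iff]
    exact hJ.homogeneous p hp a
  rw [← sum_weightedHomogeneousComponent w p]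
  rw [finsum_eq_sum _ (weightedHomogeneousComponent_finsupp p)]
  exact Ideal.sum_mem _ (fun a _ => key a)

/-- pieces of rank zero -/
lemma mem_of_rank_zero {h : A → ℕ} {I : Ideal (MvPolynomial σ R)}
    (hI : IsHilbertPoint w h I) {a : A} (ha : h a = 0) {p : MvPolynomial σ R}
    (hp : IsWeightedHomogeneous w p a) : p ∈ I := by
  obtain ⟨f1, f2, f3⟩ := hI.locallyFree a
  have : Subsingleton (GradedPiece w I a) := by
    rw [← Module.rankAtStalk_eq_zero_iff_subsingleton (R := R)]
    ext q
    rw [f3, ha]; rfl
  rw [← piece_eq_zero_iff_of_homog w I a hp]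
  exact Subsingleton.elim _ _

/-- multiplication by a homogeneous polynomial between graded pieces -/
noncomputable def mulPiece (m : MvPolynomial σ R) (c : A) (hm : IsWeightedHomogeneous w m c) (a' : A)
    (ha : a' = c + a) : GradedPiece w I a →ₗ[R] GradedPiece w I a' :=
  liftPiece w I a ((piece w I a').comp (LinearMap.mulLeft R m)) (fun p hp hh => by
    rw [LinearMap.comp_apply, LinearMap.mulLeft_apply]
    rw [piece_eq_zero_iff_of_homog w I a' (by rw [ha]; exact hm.mul hh)]
    exact I.mul_mem_left _ hp)

lemma mulPiece_piece (m : MvPolynomial σ R) (c : A) (hm : IsWeightedHomogeneous w m c) (a' : A)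
    (ha : a' = c + a) (p : MvPolynomial σ R) (hp : IsWeightedHomogeneous w p a) :
    mulPiece w I a m c hm a' ha (piece w I a p) = piece w I a' (m * p) := by
  unfold mulPiece
  rw [liftPiece_piece, weightedHomogeneousComponent_eq_self hp]
  rfl

lemma span_of_monomials {a : A} (N : Submodule R (GradedPiece w I a))
    (hN : ∀ d : σ →₀ ℕ, Finsupp.weight w d = a → piece w I a (monomial d 1) ∈ N) :
    N = ⊤ := by
  rw [eq_top_iff]
  rintro q -
  obtain ⟨p, rfl⟩ := piece_surjective w I a q
  induction p using MvPolynomial.induction_on' with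
  | monomial d r =>
    by_cases hd : Finsupp.weight w d = a
    · have : (monomial d r : MvPolynomial σ R) = r • monomial d 1 := by
        rw [smul_monomial, smul_eq_mul, mul_one]
      rw [this, map_smul]
      exact N.smul_mem _ (hN d hd)
    · rw [piece_monomial_of_ne w I a hd]; exact N.zero_mem
  | add p q hp hq => rw [map_add]; exact N.add_mem hp hq

end General

section Local

/-- over a nontrivial ring with a free module of rank one -/
lemma local_key {R : Type*} [CommRing R] [Nontrivial R] {P : Type*} [AddCommGroup P] [Module R P]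
    [Module.Free R P] [Module.Finite R P] (h1 : Module.finrank R P = 1)
    (T : P →ₗ[R] P) (u v : P)
    (hspan : Submodule.span R {u, v} = ⊤) (hTv : T v = u) :
    Submodule.span R {v} = ⊤ := by
  obtain ⟨b⟩ : Nonempty (Module.Basis (Fin 1) R P) := ⟨(Module.finBasisOfFinrankEq R P h1)⟩
  set g := b 0 with hg
  have hrep : ∀ p : P, ∃ c : R, p = c • g := fun p => by
    refine ⟨b.repr p 0, ?_⟩
    conv_lhs => rw [← b.sum_repr p]
    simp [hg]
  obtain ⟨τ, hτ⟩ := hrep (T g)
  obtain ⟨β, hβ⟩ := hrep v
  have hu : u = τ • v := by
    rw [← hTv, hβ, map_smul, hτ, smul_smul, smul_smul, mul_comm]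
  rw [eq_top_iff, ← hspan, Submodule.span_le]
  rintro x (rfl | hx)
  · rw [hu]; exact Submodule.smul_mem _ _ (Submodule.mem_span_singleton_self v)
  · rw [Set.mem_singleton_iff] at hx
    rw [hx]; exact Submodule.mem_span_singleton_self v

lemma surj_key {R : Type*} [CommRing R] {P : Type*} [AddCommGroup P] [Module R P]
    (hP : IsLocallyFreeOfRank R P 1) (T : P →ₗ[R] P) (u v : P)
    (hspan : Submodule.span R {u, v} = ⊤) (hTv : T v = u) :
    Function.Surjective (LinearMap.toSpanSingleton R P v) := by
  obtain ⟨hf, hp, hr⟩ := hP
  apply surjective_of_localized_maximal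
  intro m hm
  have : Module.Free (Localization.AtPrime m) (LocalizedModule m.primeCompl P) :=
    Module.free_of_flat_of_isLocalRing
  have h1 : Module.finrank (Localization.AtPrime m) (LocalizedModule m.primeCompl P) = 1 :=
    hr ⟨m, inferInstance⟩
  have key := local_key h1 (LocalizedModule.map m.primeCompl T)
    (LocalizedModule.mkLinearMap m.primeCompl P u) (LocalizedModule.mkLinearMap m.primeCompl P v)
    ?_ ?_
  · -- surjectivity of the localized map
    rw [← LinearMap.range_eq_top, eq_top_iff, ← key, Submodule.span_le]
    rintro x hx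
    rw [Set.mem_singleton_iff] at hx
    refine ⟨LocalizedModule.mkLinearMap m.primeCompl R 1, ?_⟩
    rw [hx, LocalizedModule.mkLinearMap_apply, LocalizedModule.map_mk,
      LinearMap.toSpanSingleton_apply, one_smul, LocalizedModule.mkLinearMap_apply]
  · have := span_eq_top_of_isLocalizedModule (Localization.AtPrime m) m.primeCompl
      (LocalizedModule.mkLinearMap m.primeCompl P) hspan
    rw [Set.image_pair] at this
    exact this
  · rw [← hTv, LocalizedModule.mkLinearMap_apply, LocalizedModule.map_mk,
      LocalizedModule.mkLinearMap_apply]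

lemma rank_one_key {R : Type*} [CommRing R] {P : Type*} [AddCommGroup P] [Module R P]
    (hP : IsLocallyFreeOfRank R P 1) (T : P →ₗ[R] P) (u v : P)
    (hspan : Submodule.span R {u, v} = ⊤) (hTu : T u = 0) (hTv : T v = u) :
    ∃ t : R, t * t = 0 ∧ u = t • v := by
  have hs := surj_key hP T u v hspan hTv
  obtain ⟨hf, hp, hr⟩ := hP
  have hb := Module.bijective_of_surjective_of_rankAtStalk_eq hs (fun m hm => by
    have : Nontrivial R := (⟨m, inferInstance⟩ : PrimeSpectrum R).nontrivial
    rw [hr, Module.rankAtStalk_self]
    rfl)
  obtain ⟨t, ht⟩ := hs u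
  rw [LinearMap.toSpanSingleton_apply] at ht
  refine ⟨t, ?_, ht.symm⟩
  apply hb.1
  rw [LinearMap.toSpanSingleton_apply, map_zero, mul_smul, ht, ← hTv, ← map_smul, ht, hTu]

end Local


section Map

lemma IsHilbertPoint.map {σ A : Type*} [AddCommGroup A] {w : σ → A} {h : A → ℕ}
    {R R' : Type*} [CommRing R] [CommRing R'] (f : R →+* R') {I : Ideal (MvPolynomial σ R)}
    (hI : IsHilbertPoint w h I) :
    IsHilbertPoint w h (I.map (MvPolynomial.map (σ := σ) f)) := by
  let _ : Algebra R R' := f.toAlgebra
  exact IsHilbertPoint.map_algebraMap w hI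

end Map

end Pool.Agent.Lib.MP_94ed3e_ag
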