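import Pool.Agent.Lib.MP_94ed3e_ag.Functor

/-!
# Computation of the points of the multigraded Hilbert functor of our example
-/

set_option autoImplicit false

open MvPolynomial

universe u

namespace Pool.Agent.Lib.MP_94ed3e_ag

section Example

/-- exponent vectors -/
noncomputable def ex (i j l : ℕ) : Fin 3 →₀ ℕ :=
  Finsupp.single 0 i + Finsupp.single 1 j + Finsupp.single 2 l

lemma ex_eq (d : Fin 3 →₀ ℕ) : d = ex (d 0) (d 1) (d 2) := by
  ext i
  fin_cases i <;> simp [ex]

@[simp] lemma ex_zero (i j l : ℕ) : ex i j l 0 = i := by simp [ex]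
@[simp] lemma ex_one (i j l : ℕ) : ex i j l 1 = j := by simp [ex]
@[simp] lemma ex_two (i j l : ℕ) : ex i j l 2 = l := by simp [ex]

lemma ex_inj {i j l i' j' l' : ℕ} : ex i j l = ex i' j' l' ↔ i = i' ∧ j = j' ∧ l = l' := by
  constructor
  · intro h
    refine ⟨?_, ?_, ?_⟩
    · simpa using DFunLike.congr_fun h 0
    · simpa using DFunLike.congr_fun h 1
    · simpa using DFunLike.congr_fun h 2
  · rintro ⟨rfl, rfl, rfl⟩; rfl

lemma weight_ex (i j l : ℕ) : Finsupp.weight wt (ex i j l) = ((i : ℤ) + l, (j : ℤ) + l) := by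
  simp [ex, wt, Finsupp.weight_single]

lemma weight_wt (d : Fin 3 →₀ ℕ) :
    Finsupp.weight wt d = ((d 0 : ℤ) + d 2, (d 1 : ℤ) + d 2) := by
  conv_lhs => rw [ex_eq d]
  exact weight_ex _ _ _

variable {R : Type*} [CommRing R]

lemma coeff_X0_mul (i j l : ℕ) (f : MvPolynomial (Fin 3) R) :
    coeff (ex (i + 1) j l) (X 0 * f) = coeff (ex i j l) f := by
  have : ex (i + 1) j l = Finsupp.single 0 1 + ex i j l := by
    ext s; fin_cases s <;> simp [ex, add_comm]
  rw [this, coeff_X_mul]

lemma coeff_X0_mul_zero (j l : ℕ) (f : MvPolynomial (Fin 3) R) :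
    coeff (ex 0 j l) (X 0 * f) = 0 := by
  classical
  rw [coeff_X_mul', if_neg]
  simp

lemma coeff_X1_mul (i j l : ℕ) (f : MvPolynomial (Fin 3) R) :
    coeff (ex i (j + 1) l) (X 1 * f) = coeff (ex i j l) f := by
  have : ex i (j + 1) l = Finsupp.single 1 1 + ex i j l := by
    ext s; fin_cases s <;> simp [ex, add_comm]
  rw [this, coeff_X_mul]

lemma coeff_X1_mul_zero (i l : ℕ) (f : MvPolynomial (Fin 3) R) :
    coeff (ex i 0 l) (X 1 * f) = 0 := by
  classical
  rw [coeff_X_mul', if_neg]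
  simp

lemma coeff_X2_mul (i j l : ℕ) (f : MvPolynomial (Fin 3) R) :
    coeff (ex i j (l + 1)) (X 2 * f) = coeff (ex i j l) f := by
  have : ex i j (l + 1) = Finsupp.single 2 1 + ex i j l := by
    ext s; fin_cases s <;> simp [ex, add_comm]
  rw [this, coeff_X_mul]

lemma coeff_X2_mul_zero (i j : ℕ) (f : MvPolynomial (Fin 3) R) :
    coeff (ex i j 0) (X 2 * f) = 0 := by
  classical
  rw [coeff_X_mul', if_neg]
  simp

/-- The membership condition. -/
structure InIb (b : R) (f : MvPolynomial (Fin 3) R) : Prop where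
  c1 : ∀ j, coeff (ex 0 j 0) f = 0
  c2 : coeff (ex 1 0 0) f = 0
  c3 : coeff (ex 1 1 0) f = 0
  c4 : coeff (ex 0 0 1) f = 0
  c5 : coeff (ex 1 0 1) f = 0
  c6 : ∀ j, coeff (ex 0 (j + 1) 1) f = b * coeff (ex 1 (j + 2) 0) f
  c7 : ∀ j, coeff (ex 0 j 2) f = b * coeff (ex 1 (j + 1) 1) f

/-- the ideal -/
noncomputable def Ib (b : R) (hb : b * b = 0) : Ideal (MvPolynomial (Fin 3) R) where
  carrier := {f | InIb b f}
  zero_mem' := by constructor <;> simp
  add_mem' := by
    intro f g hf hg
    constructor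
    · intro j; simp [hf.c1, hg.c1]
    · simp [hf.c2, hg.c2]
    · simp [hf.c3, hg.c3]
    · simp [hf.c4, hg.c4]
    · simp [hf.c5, hg.c5]
    · intro j; simp [hf.c6, hg.c6, mul_add]
    · intro j; simp [hf.c7, hg.c7, mul_add]
  smul_mem' := by
    intro c f hf
    simp only [smul_eq_mul, Set.mem_ofPred_eq] at hf ⊢
    induction c using MvPolynomial.induction_on generalizing f with
    | C r =>
      constructor
      · intro j; simp [coeff_C_mul, hf.c1]
      · simp [coeff_C_mul, hf.c2]
      · simp [coeff_C_mul, hf.c3]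
      · simp [coeff_C_mul, hf.c4]
      · simp [coeff_C_mul, hf.c5]
      · intro j; simp only [coeff_C_mul, hf.c6]; ring
      · intro j; simp only [coeff_C_mul, hf.c7]; ring
    | add p q hp hq =>
      have h1 := hp hf
      have h2 := hq hf
      rw [add_mul]
      constructor
      · intro j; simp [h1.c1, h2.c1]
      · simp [h1.c2, h2.c2]
      · simp [h1.c3, h2.c3]
      · simp [h1.c4, h2.c4]
      · simp [h1.c5, h2.c5]
      · intro j; simp [h1.c6, h2.c6, mul_add]
      · intro j; simp [h1.c7, h2.c7, mul_add]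
    | mul_X p i hp =>
      rw [mul_assoc]
      apply hp
      fin_cases i
      · simp only [Fin.zero_eta]
        constructor
        · intro j; rw [coeff_X0_mul_zero]
        · rw [coeff_X0_mul _ _ _]; exact hf.c1 0
        · rw [coeff_X0_mul]; exact hf.c1 1
        · rw [coeff_X0_mul_zero]
        · rw [coeff_X0_mul]; exact hf.c4
        · intro j; rw [coeff_X0_mul_zero, coeff_X0_mul, hf.c1, mul_zero]
        · intro j; rw [coeff_X0_mul_zero, coeff_X0_mul, hf.c6, ← mul_assoc, hb, zero_mul]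
      · simp only [Fin.mk_one]
        constructor
        · rintro (_ | j)
          · rw [coeff_X1_mul_zero]
          · rw [coeff_X1_mul]; exact hf.c1 j
        · rw [coeff_X1_mul_zero]
        · rw [coeff_X1_mul]; exact hf.c2
        · rw [coeff_X1_mul_zero]
        · rw [coeff_X1_mul_zero]
        · rintro (_ | j)
          · rw [coeff_X1_mul, coeff_X1_mul, hf.c4, hf.c3, mul_zero]
          · rw [coeff_X1_mul, hf.c6, show j + 1 + 2 = (j + 2) + 1 by ring, coeff_X1_mul]
        · rintro (_ | j)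
          · rw [coeff_X1_mul_zero, coeff_X1_mul, hf.c5, mul_zero]
          · rw [coeff_X1_mul, coeff_X1_mul, hf.c7]
      · simp only [Fin.reduceFinMk]
        constructor
        · intro j; rw [coeff_X2_mul_zero]
        · rw [coeff_X2_mul_zero]
        · rw [coeff_X2_mul_zero]
        · rw [coeff_X2_mul]; exact hf.c1 0
        · rw [coeff_X2_mul]; exact hf.c2
        · intro j; rw [coeff_X2_mul, coeff_X2_mul_zero, hf.c1, mul_zero]
        · rintro (_ | j)
          · rw [coeff_X2_mul, coeff_X2_mul, hf.c4, hf.c3, mul_zero]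
          · rw [coeff_X2_mul, coeff_X2_mul, hf.c6]


lemma mem_Ib {b : R} {hb : b * b = 0} {f : MvPolynomial (Fin 3) R} :
    f ∈ Ib b hb ↔ InIb b f := Iff.rfl

lemma hcoeff {f : MvPolynomial (Fin 3) R} {p q : ℤ} (hf : IsWeightedHomogeneous wt f (p, q))
    (i j l : ℕ) (h : (i : ℤ) + l ≠ p ∨ (j : ℤ) + l ≠ q) : coeff (ex i j l) f = 0 := by
  apply hf.coeff_eq_zero
  rw [weight_ex]
  intro h'
  rw [Prod.mk.injEq] at h'
  omega

lemma Ib_homogeneous (b : R) (hb : b * b = 0) : ∀ f ∈ Ib b hb, ∀ a : ℤ × ℤ,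
    weightedHomogeneousComponent wt a f ∈ Ib b hb := by
  classical
  intro f hf a
  rw [mem_Ib] at hf ⊢
  constructor
  · intro j; rw [coeff_weightedHomogeneousComponent, hf.c1, ite_self]
  · rw [coeff_weightedHomogeneousComponent, hf.c2, ite_self]
  · rw [coeff_weightedHomogeneousComponent, hf.c3, ite_self]
  · rw [coeff_weightedHomogeneousComponent, hf.c4, ite_self]
  · rw [coeff_weightedHomogeneousComponent, hf.c5, ite_self]
  · intro j
    rw [coeff_weightedHomogeneousComponent, coeff_weightedHomogeneousComponent, weight_ex,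
      weight_ex, hf.c6]
    have : (((0 : ℕ) : ℤ) + ((1 : ℕ) : ℤ), (((j + 1 : ℕ)) : ℤ) + ((1 : ℕ) : ℤ)) =
        (((1 : ℕ) : ℤ) + ((0 : ℕ) : ℤ), (((j + 2 : ℕ)) : ℤ) + ((0 : ℕ) : ℤ)) := by
      push_cast; ring_nf
    rw [this]
    split_ifs <;> simp
  · intro j
    rw [coeff_weightedHomogeneousComponent, coeff_weightedHomogeneousComponent, weight_ex,
      weight_ex, hf.c7]
    have : (((0 : ℕ) : ℤ) + ((2 : ℕ) : ℤ), ((j : ℕ) : ℤ) + ((2 : ℕ) : ℤ)) =
        (((1 : ℕ) : ℤ) + ((1 : ℕ) : ℤ), (((j + 1 : ℕ)) : ℤ) + ((1 : ℕ) : ℤ)) := by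
      push_cast; ring_nf
    rw [this]
    split_ifs <;> simp

lemma homog_monomial (i j l : ℕ) (r : R) :
    IsWeightedHomogeneous wt (monomial (ex i j l) r) ((i : ℤ) + l, (j : ℤ) + l) :=
  isWeightedHomogeneous_monomial _ _ _ (weight_ex i j l)

lemma homog_monomial' (i j l : ℕ) (r : R) (p q : ℤ) (hp : p = (i : ℤ) + l)
    (hq : q = (j : ℤ) + l) : IsWeightedHomogeneous wt (monomial (ex i j l) r) (p, q) := by
  subst hp hq
  exact homog_monomial i j l r

lemma Ib_locallyFree (b : R) (hb : b * b = 0) (a : ℤ × ℤ) :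
    IsLocallyFreeOfRank R (GradedPiece wt (Ib b hb) a) (hilb a) := by
  classical
  obtain ⟨p, q⟩ := a
  by_cases hA : p = 0 ∧ 0 ≤ q
  · obtain ⟨rfl, hq⟩ := hA
    obtain ⟨j, rfl⟩ := Int.eq_ofNat_of_zero_le hq
    have e : hilb ((0 : ℤ), (j : ℤ)) = 1 := by simp [hilb]
    rw [e]
    refine isLocallyFreeOfRank_of_functional wt _ _ (N := R) (fun _ => Module.finrank_self R)
      (lcoeff R (ex 0 j 0)) ?_ ?_
    · intro f hf
      rw [mem_Ib, lcoeff_apply]
      refine ⟨fun h => ⟨?_, ?_, ?_, ?_, ?_, ?_, ?_⟩, fun h => h.c1 j⟩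
      · intro j'
        by_cases hj : j' = j
        · rw [hj, h]
        · exact hcoeff hf 0 j' 0 (by omega)
      · exact hcoeff hf _ _ _ (by omega)
      · exact hcoeff hf _ _ _ (by omega)
      · exact hcoeff hf _ _ _ (by omega)
      · exact hcoeff hf _ _ _ (by omega)
      · intro j'; rw [hcoeff hf _ _ _ (by omega), hcoeff hf _ _ _ (by omega), mul_zero]
      · intro j'; rw [hcoeff hf _ _ _ (by omega), hcoeff hf _ _ _ (by omega), mul_zero]
    · intro n
      refine ⟨monomial (ex 0 j 0) n, ?_, ?_⟩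
      · exact homog_monomial' 0 j 0 n _ _ (by omega) (by omega)
      · simp [lcoeff_apply]
  by_cases hB : p = 1 ∧ q = 1
  · obtain ⟨rfl, rfl⟩ := hB
    have e : hilb ((1 : ℤ), (1 : ℤ)) = 2 := by simp [hilb]
    rw [e]
    refine isLocallyFreeOfRank_of_functional wt _ _ (N := R × R) (fun _ => by simp)
      ((lcoeff R (ex 1 1 0)).prod (lcoeff R (ex 0 0 1))) ?_ ?_
    · intro f hf
      rw [mem_Ib, LinearMap.prod_apply, Function.prod_apply, lcoeff_apply, lcoeff_apply, Prod.mk_eq_zero]
      refine ⟨fun h => ⟨?_, ?_, h.1, h.2, ?_, ?_, ?_⟩, fun h => ⟨h.c3, h.c4⟩⟩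
      · intro j'; exact hcoeff hf _ _ _ (by omega)
      · exact hcoeff hf _ _ _ (by omega)
      · exact hcoeff hf _ _ _ (by omega)
      · intro j'; rw [hcoeff hf _ _ _ (by omega), hcoeff hf _ _ _ (by omega), mul_zero]
      · intro j'; rw [hcoeff hf _ _ _ (by omega), hcoeff hf _ _ _ (by omega), mul_zero]
    · rintro ⟨n, m⟩
      refine ⟨monomial (ex 1 1 0) n + monomial (ex 0 0 1) m, ?_, ?_⟩
      · apply IsWeightedHomogeneous.add
        · exact homog_monomial' 1 1 0 n _ _ (by omega) (by omega)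
        · exact homog_monomial' 0 0 1 m _ _ (by omega) (by omega)
      · simp [LinearMap.prod_apply, lcoeff_apply, coeff_monomial, ex_inj]
  by_cases hC : p = 1 ∧ q = 0
  · obtain ⟨rfl, rfl⟩ := hC
    have e : hilb ((1 : ℤ), (0 : ℤ)) = 1 := by simp [hilb]
    rw [e]
    refine isLocallyFreeOfRank_of_functional wt _ _ (N := R) (fun _ => Module.finrank_self R)
      (lcoeff R (ex 1 0 0)) ?_ ?_
    · intro f hf
      rw [mem_Ib, lcoeff_apply]
      refine ⟨fun h => ⟨?_, h, ?_, ?_, ?_, ?_, ?_⟩, fun h => h.c2⟩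
      · intro j'; exact hcoeff hf _ _ _ (by omega)
      · exact hcoeff hf _ _ _ (by omega)
      · exact hcoeff hf _ _ _ (by omega)
      · exact hcoeff hf _ _ _ (by omega)
      · intro j'; rw [hcoeff hf _ _ _ (by omega), hcoeff hf _ _ _ (by omega), mul_zero]
      · intro j'; rw [hcoeff hf _ _ _ (by omega), hcoeff hf _ _ _ (by omega), mul_zero]
    · intro n
      refine ⟨monomial (ex 1 0 0) n, ?_, ?_⟩
      · exact homog_monomial' 1 0 0 n _ _ (by omega) (by omega)
      · simp [lcoeff_apply]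
  by_cases hD : p = 1 ∧ 2 ≤ q
  · obtain ⟨rfl, hq⟩ := hD
    obtain ⟨j, rfl⟩ : ∃ j : ℕ, q = (j : ℤ) + 2 := ⟨(q - 2).toNat, by omega⟩
    have e : hilb ((1 : ℤ), (j : ℤ) + 2) = 1 := by
      unfold hilb
      rw [if_neg (by simp), if_neg (by simp; omega), if_pos (by simp; omega)]
    rw [e]
    refine isLocallyFreeOfRank_of_functional wt _ _ (N := R) (fun _ => Module.finrank_self R)
      (lcoeff R (ex 0 (j + 1) 1) - b • lcoeff R (ex 1 (j + 2) 0)) ?_ ?_
    · intro f hf
      rw [mem_Ib, LinearMap.sub_apply, LinearMap.smul_apply, lcoeff_apply, lcoeff_apply,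
        smul_eq_mul, sub_eq_zero]
      refine ⟨fun h => ⟨?_, ?_, ?_, ?_, ?_, ?_, ?_⟩, fun h => h.c6 j⟩
      · intro j'; exact hcoeff hf _ _ _ (by omega)
      · exact hcoeff hf _ _ _ (by omega)
      · exact hcoeff hf _ _ _ (by omega)
      · exact hcoeff hf _ _ _ (by omega)
      · exact hcoeff hf _ _ _ (by omega)
      · intro j'
        by_cases hj : j' = j
        · rw [hj, h]
        · rw [hcoeff hf _ _ _ (by omega), hcoeff hf _ _ _ (by omega), mul_zero]
      · intro j'; rw [hcoeff hf _ _ _ (by omega), hcoeff hf _ _ _ (by omega), mul_zero]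
    · intro n
      refine ⟨monomial (ex 0 (j + 1) 1) n, ?_, ?_⟩
      · exact homog_monomial' 0 (j + 1) 1 n _ _ (by omega) (by omega)
      · simp [lcoeff_apply, coeff_monomial, ex_inj]
  by_cases hE : p = 2 ∧ q = 1
  · obtain ⟨rfl, rfl⟩ := hE
    have e : hilb ((2 : ℤ), (1 : ℤ)) = 1 := by simp [hilb]
    rw [e]
    refine isLocallyFreeOfRank_of_functional wt _ _ (N := R) (fun _ => Module.finrank_self R)
      (lcoeff R (ex 1 0 1)) ?_ ?_
    · intro f hf
      rw [mem_Ib, lcoeff_apply]
      refine ⟨fun h => ⟨?_, ?_, ?_, ?_, h, ?_, ?_⟩, fun h => h.c5⟩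
      · intro j'; exact hcoeff hf _ _ _ (by omega)
      · exact hcoeff hf _ _ _ (by omega)
      · exact hcoeff hf _ _ _ (by omega)
      · exact hcoeff hf _ _ _ (by omega)
      · intro j'; rw [hcoeff hf _ _ _ (by omega), hcoeff hf _ _ _ (by omega), mul_zero]
      · intro j'; rw [hcoeff hf _ _ _ (by omega), hcoeff hf _ _ _ (by omega), mul_zero]
    · intro n
      refine ⟨monomial (ex 1 0 1) n, ?_, ?_⟩
      · exact homog_monomial' 1 0 1 n _ _ (by omega) (by omega)
      · simp [lcoeff_apply]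
  by_cases hF : p = 2 ∧ 2 ≤ q
  · obtain ⟨rfl, hq⟩ := hF
    obtain ⟨j, rfl⟩ : ∃ j : ℕ, q = (j : ℤ) + 2 := ⟨(q - 2).toNat, by omega⟩
    have e : hilb ((2 : ℤ), (j : ℤ) + 2) = 1 := by
      unfold hilb
      rw [if_neg (by simp), if_neg (by simp), if_neg (by simp), if_pos (by simp; omega)]
    rw [e]
    refine isLocallyFreeOfRank_of_functional wt _ _ (N := R) (fun _ => Module.finrank_self R)
      (lcoeff R (ex 0 j 2) - b • lcoeff R (ex 1 (j + 1) 1)) ?_ ?_
    · intro f hf
      rw [mem_Ib, LinearMap.sub_apply, LinearMap.smul_apply, lcoeff_apply, lcoeff_apply,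
        smul_eq_mul, sub_eq_zero]
      refine ⟨fun h => ⟨?_, ?_, ?_, ?_, ?_, ?_, ?_⟩, fun h => h.c7 j⟩
      · intro j'; exact hcoeff hf _ _ _ (by omega)
      · exact hcoeff hf _ _ _ (by omega)
      · exact hcoeff hf _ _ _ (by omega)
      · exact hcoeff hf _ _ _ (by omega)
      · exact hcoeff hf _ _ _ (by omega)
      · intro j'; rw [hcoeff hf _ _ _ (by omega), hcoeff hf _ _ _ (by omega), mul_zero]
      · intro j'
        by_cases hj : j' = j
        · rw [hj, h]
        · rw [hcoeff hf _ _ _ (by omega), hcoeff hf _ _ _ (by omega), mul_zero]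
    · intro n
      refine ⟨monomial (ex 0 j 2) n, ?_, ?_⟩
      · exact homog_monomial' 0 j 2 n _ _ (by omega) (by omega)
      · simp [lcoeff_apply, coeff_monomial, ex_inj]
  · have e : hilb (p, q) = 0 := by
      unfold hilb
      rw [if_neg hA, if_neg hB, if_neg (by simp; omega), if_neg (by simp; omega)]
    rw [e]
    refine isLocallyFreeOfRank_of_functional wt _ _ (N := PUnit)
      (fun _ => Module.finrank_zero_of_subsingleton) 0 ?_ ?_
    · intro f hf
      rw [mem_Ib]
      refine ⟨fun h => ⟨?_, ?_, ?_, ?_, ?_, ?_, ?_⟩, fun h => rfl⟩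
      · intro j'; exact hcoeff hf _ _ _ (by omega)
      · exact hcoeff hf _ _ _ (by omega)
      · exact hcoeff hf _ _ _ (by omega)
      · exact hcoeff hf _ _ _ (by omega)
      · exact hcoeff hf _ _ _ (by omega)
      · intro j'; rw [hcoeff hf _ _ _ (by omega), hcoeff hf _ _ _ (by omega), mul_zero]
      · intro j'; rw [hcoeff hf _ _ _ (by omega), hcoeff hf _ _ _ (by omega), mul_zero]
    · intro n
      exact ⟨0, isWeightedHomogeneous_zero _ _ _, rfl⟩

theorem Ib_isHilbertPoint (b : R) (hb : b * b = 0) : IsHilbertPoint wt hilb (Ib b hb) :=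
  ⟨Ib_homogeneous b hb, Ib_locallyFree b hb⟩


/-- the second generator -/
noncomputable def gF (b : R) : MvPolynomial (Fin 3) R :=
  monomial (ex 1 2 0) 1 + monomial (ex 0 1 1) b

/-- the third generator -/
noncomputable def gG (b : R) : MvPolynomial (Fin 3) R :=
  monomial (ex 1 1 1) 1 + monomial (ex 0 0 2) b

lemma gF_mem (b : R) (hb : b * b = 0) : gF b ∈ Ib b hb := by
  rw [mem_Ib]
  constructor
  · intro j; simp [gF, coeff_monomial, ex_inj]
  · simp [gF, coeff_monomial, ex_inj]
  · simp [gF, coeff_monomial, ex_inj]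
  · simp [gF, coeff_monomial, ex_inj]
  · simp [gF, coeff_monomial, ex_inj]
  · intro j
    rcases j with _ | j <;> simp [gF, coeff_monomial, ex_inj]
  · intro j; simp [gF, coeff_monomial, ex_inj]

lemma gG_mem (b : R) (hb : b * b = 0) : gG b ∈ Ib b hb := by
  rw [mem_Ib]
  constructor
  · intro j; simp [gG, coeff_monomial, ex_inj]
  · simp [gG, coeff_monomial, ex_inj]
  · simp [gG, coeff_monomial, ex_inj]
  · simp [gG, coeff_monomial, ex_inj]
  · simp [gG, coeff_monomial, ex_inj]
  · intro j; simp [gG, coeff_monomial, ex_inj]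
  · intro j
    rcases j with _ | j <;> simp [gG, coeff_monomial, ex_inj]

lemma eq_of_gF_mem {b b' : R} {hb' : b' * b' = 0} (h : gF b ∈ Ib b' hb') : b = b' := by
  rw [mem_Ib] at h
  have := h.c6 0
  simpa [gF, coeff_monomial, ex_inj] using this

lemma mon_mem_Ib (b : R) (hb : b * b = 0) (i j l : ℕ) (r : R)
    (h : 2 ≤ i ∨ (i = 1 ∧ 2 ≤ l) ∨ 3 ≤ l) : monomial (ex i j l) r ∈ Ib b hb := by
  rw [mem_Ib]
  constructor
  all_goals (try intro j'); simp only [coeff_monomial, ex_inj]
  all_goals (repeat rw [if_neg (by omega)]); try rw [mul_zero]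

lemma monomial_mul_ex (i j l i' j' l' : ℕ) (r s : R) :
    monomial (ex i j l) r * monomial (ex i' j' l') s =
      monomial (ex (i + i') (j + j') (l + l')) (r * s) := by
  have : ex i j l + ex i' j' l' = ex (i + i') (j + j') (l + l') := by
    ext t; fin_cases t <;> simp
  rw [monomial_mul, this]

/-- the module of polynomials supported on standard monomials -/
def NS (R : Type*) [CommRing R] : Submodule R (MvPolynomial (Fin 3) R) where
  carrier := {f | ∀ i j l, ¬ ((i = 0 ∧ l ≤ 2) ∨ (i = 1 ∧ j ≤ 1 ∧ l = 0) ∨ (i = 1 ∧ j = 0 ∧ l = 1)) →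
    coeff (ex i j l) f = 0}
  zero_mem' := by intro i j l _; simp
  add_mem' := by intro f g hf hg i j l h; simp [hf i j l h, hg i j l h]
  smul_mem' := by intro c f hf i j l h; simp [hf i j l h]

lemma mem_NS {f : MvPolynomial (Fin 3) R} : f ∈ NS R ↔
    ∀ i j l, ¬ ((i = 0 ∧ l ≤ 2) ∨ (i = 1 ∧ j ≤ 1 ∧ l = 0) ∨ (i = 1 ∧ j = 0 ∧ l = 1)) →
    coeff (ex i j l) f = 0 := Iff.rfl

lemma mon_mem_NS (i j l : ℕ) (r : R)
    (h : (i = 0 ∧ l ≤ 2) ∨ (i = 1 ∧ j ≤ 1 ∧ l = 0) ∨ (i = 1 ∧ j = 0 ∧ l = 1)) :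
    monomial (ex i j l) r ∈ NS R := by
  rw [mem_NS]
  intro i' j' l' h'
  rw [coeff_monomial, if_neg]
  rw [ex_inj]
  rintro ⟨rfl, rfl, rfl⟩
  exact h' h

lemma Ib_inf_NS (b : R) (hb : b * b = 0) {f : MvPolynomial (Fin 3) R} (h1 : f ∈ Ib b hb)
    (h2 : f ∈ NS R) : f = 0 := by
  rw [mem_Ib] at h1
  rw [mem_NS] at h2
  ext d
  rw [ex_eq d, coeff_zero]
  generalize d 0 = i
  generalize d 1 = j
  generalize d 2 = l
  by_cases h : (i = 0 ∧ l ≤ 2) ∨ (i = 1 ∧ j ≤ 1 ∧ l = 0) ∨ (i = 1 ∧ j = 0 ∧ l = 1)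
  · rcases h with ⟨rfl, hl⟩ | ⟨rfl, hj, rfl⟩ | ⟨rfl, rfl, rfl⟩
    · interval_cases l
      · exact h1.c1 j
      · rcases j with _ | j
        · exact h1.c4
        · rw [h1.c6, h2 1 (j + 2) 0 (by omega), mul_zero]
      · rw [h1.c7, h2 1 (j + 1) 1 (by omega), mul_zero]
    · interval_cases j
      · exact h1.c2
      · exact h1.c3
    · exact h1.c5
  · exact h2 i j l h

lemma decomp (I : Ideal (MvPolynomial (Fin 3) R)) (b : R)
    (h1 : monomial (ex 2 0 0) 1 ∈ I) (h2 : gF b ∈ I) (h3 : gG b ∈ I)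
    (h4 : monomial (ex 1 0 2) 1 ∈ I) (h5 : monomial (ex 0 0 3) 1 ∈ I)
    (f : MvPolynomial (Fin 3) R) : ∃ g ∈ I, f - g ∈ NS R := by
  induction f using MvPolynomial.induction_on' with
  | monomial d r =>
    rw [ex_eq d]
    generalize d 0 = i
    generalize d 1 = j
    generalize d 2 = l
    by_cases h : (i = 0 ∧ l ≤ 2) ∨ (i = 1 ∧ j ≤ 1 ∧ l = 0) ∨ (i = 1 ∧ j = 0 ∧ l = 1)
    · exact ⟨0, I.zero_mem, by rw [sub_zero]; exact mon_mem_NS i j l r h⟩
    by_cases hi : 2 ≤ i
    · obtain ⟨i', rfl⟩ := Nat.exists_eq_add_of_le' hi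
      refine ⟨_, I.mul_mem_left (monomial (ex i' j l) r) h1, ?_⟩
      rw [monomial_mul_ex]
      simp
    by_cases hl : 3 ≤ l
    · obtain ⟨l', rfl⟩ := Nat.exists_eq_add_of_le' hl
      refine ⟨_, I.mul_mem_left (monomial (ex i j l') r) h5, ?_⟩
      rw [monomial_mul_ex]
      simp
    by_cases hl2 : 2 ≤ l
    · obtain ⟨l', rfl⟩ := Nat.exists_eq_add_of_le' hl2
      obtain rfl : i = 1 := by omega
      refine ⟨_, I.mul_mem_left (monomial (ex 0 j l') r) h4, ?_⟩
      rw [monomial_mul_ex]
      simp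
    by_cases hl1 : l = 1
    · subst hl1
      obtain rfl : i = 1 := by omega
      obtain ⟨j', rfl⟩ := Nat.exists_eq_add_of_le' (show 1 ≤ j by omega)
      refine ⟨_, I.mul_mem_left (monomial (ex 0 j' 0) r) h3, ?_⟩
      rw [gG, mul_add, monomial_mul_ex, monomial_mul_ex]
      simp only [mul_one, zero_add, add_zero]
      rw [sub_add_eq_sub_sub, sub_self, zero_sub]
      exact (NS R).neg_mem (mon_mem_NS _ _ _ _ (by omega))
    · obtain rfl : l = 0 := by omega
      obtain rfl : i = 1 := by omega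
      obtain ⟨j', rfl⟩ := Nat.exists_eq_add_of_le' (show 2 ≤ j by omega)
      refine ⟨_, I.mul_mem_left (monomial (ex 0 j' 0) r) h2, ?_⟩
      rw [gF, mul_add, monomial_mul_ex, monomial_mul_ex]
      simp only [mul_one, zero_add, add_zero]
      rw [sub_add_eq_sub_sub, sub_self, zero_sub]
      exact (NS R).neg_mem (mon_mem_NS _ _ _ _ (by omega))
  | add p q hp hq =>
    obtain ⟨g, hg, hg'⟩ := hp
    obtain ⟨g', hg1, hg1'⟩ := hq
    refine ⟨g + g', I.add_mem hg hg1, ?_⟩
    rw [add_sub_add_comm]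
    exact (NS R).add_mem hg' hg1'

lemma Ib_le (I : Ideal (MvPolynomial (Fin 3) R)) (b : R) (hb : b * b = 0)
    (h1 : monomial (ex 2 0 0) 1 ∈ I) (h2 : gF b ∈ I) (h3 : gG b ∈ I)
    (h4 : monomial (ex 1 0 2) 1 ∈ I) (h5 : monomial (ex 0 0 3) 1 ∈ I) : Ib b hb ≤ I := by
  intro f hf
  obtain ⟨g, hg, hg'⟩ := decomp (I ⊓ Ib b hb) b
    ⟨h1, mon_mem_Ib b hb _ _ _ _ (by omega)⟩ ⟨h2, gF_mem b hb⟩ ⟨h3, gG_mem b hb⟩
    ⟨h4, mon_mem_Ib b hb _ _ _ _ (by omega)⟩ ⟨h5, mon_mem_Ib b hb _ _ _ _ (by omega)⟩ f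
  have : f - g = 0 := Ib_inf_NS b hb ((Ib b hb).sub_mem hf hg.2) hg'
  rw [sub_eq_zero] at this
  rw [this]
  exact hg.1

theorem exists_of_isHilbertPoint (I : Ideal (MvPolynomial (Fin 3) R))
    (hI : IsHilbertPoint wt hilb I) : ∃ (b : R) (hb : b * b = 0), I = Ib b hb := by
  have m200 : ∀ j l : ℕ, (monomial (ex 2 0 0) 1 : MvPolynomial (Fin 3) R) ∈ I := fun _ _ =>
    mem_of_rank_zero wt hI (a := (2, 0)) (by simp [hilb])
      (homog_monomial' 2 0 0 1 _ _ (by omega) (by omega))
  have m102 : (monomial (ex 1 0 2) 1 : MvPolynomial (Fin 3) R) ∈ I :=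
    mem_of_rank_zero wt hI (a := (3, 2)) (by simp [hilb])
      (homog_monomial' 1 0 2 1 _ _ (by omega) (by omega))
  have m003 : (monomial (ex 0 0 3) 1 : MvPolynomial (Fin 3) R) ∈ I :=
    mem_of_rank_zero wt hI (a := (3, 3)) (by simp [hilb])
      (homog_monomial' 0 0 3 1 _ _ (by omega) (by omega))
  have m220 : (monomial (ex 2 2 0) 1 : MvPolynomial (Fin 3) R) ∈ I := by
    have := I.mul_mem_left (monomial (ex 0 2 0) 1) (m200 0 0)
    rw [monomial_mul_ex] at this
    simpa using this
  have hP : IsLocallyFreeOfRank R (GradedPiece wt I (1, 2)) 1 := hI.locallyFree (1, 2)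
  have hP' : IsLocallyFreeOfRank R (GradedPiece wt I (2, 2)) 1 := hI.locallyFree (2, 2)
  have hP'' : IsLocallyFreeOfRank R (GradedPiece wt I (2, 3)) 1 := hI.locallyFree (2, 3)
  set u : GradedPiece wt I (1, 2) := piece wt I (1, 2) (monomial (ex 1 2 0) 1) with hu
  set v : GradedPiece wt I (1, 2) := piece wt I (1, 2) (monomial (ex 0 1 1) 1) with hv
  set e : GradedPiece wt I (2, 2) := piece wt I (2, 2) (monomial (ex 1 1 1) 1) with he
  set f : GradedPiece wt I (2, 2) := piece wt I (2, 2) (monomial (ex 0 0 2) 1) with hf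
  have p220 : piece wt I (2, 2) (monomial (ex 2 2 0) 1) = 0 := by
    rw [piece_eq_zero_iff_of_homog wt I _ (homog_monomial' 2 2 0 1 _ _ (by omega) (by omega))]
    exact m220
  have span_uv : Submodule.span R {u, v} = ⊤ := by
    apply span_of_monomials
    intro d hd
    rw [weight_wt, Prod.mk.injEq] at hd
    by_cases h2 : d 2 = 0
    · have : d = ex 1 2 0 := by
        rw [ex_eq d, ex_inj]; omega
      rw [this]
      exact Submodule.subset_span (by simp [hu])
    · have : d = ex 0 1 1 := by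
        rw [ex_eq d, ex_inj]; omega
      rw [this]
      exact Submodule.subset_span (by simp [hv])
  have span_ef : Submodule.span R {e, f} = ⊤ := by
    apply span_of_monomials
    intro d hd
    rw [weight_wt, Prod.mk.injEq] at hd
    by_cases h2 : d 2 = 0
    · have : d = ex 2 2 0 := by
        rw [ex_eq d, ex_inj]; omega
      rw [this, p220]
      exact Submodule.zero_mem _
    by_cases h3 : d 2 = 1
    · have : d = ex 1 1 1 := by
        rw [ex_eq d, ex_inj]; omega
      rw [this]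
      exact Submodule.subset_span (by simp [he])
    · have : d = ex 0 0 2 := by
        rw [ex_eq d, ex_inj]; omega
      rw [this]
      exact Submodule.subset_span (by simp [hf])
  -- multiplication maps
  let μx : GradedPiece wt I (1, 2) →ₗ[R] GradedPiece wt I (2, 2) :=
    mulPiece wt I (1, 2) (monomial (ex 1 0 0) 1) (1, 0)
      (homog_monomial' 1 0 0 1 _ _ (by omega) (by omega)) (2, 2) (by simp)
  let μz : GradedPiece wt I (1, 2) →ₗ[R] GradedPiece wt I (2, 3) :=
    mulPiece wt I (1, 2) (monomial (ex 0 0 1) 1) (1, 1)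
      (homog_monomial' 0 0 1 1 _ _ (by omega) (by omega)) (2, 3) (by simp)
  let μy : GradedPiece wt I (2, 2) →ₗ[R] GradedPiece wt I (2, 3) :=
    mulPiece wt I (2, 2) (monomial (ex 0 1 0) 1) (0, 1)
      (homog_monomial' 0 1 0 1 _ _ (by omega) (by omega)) (2, 3) (by simp)
  have μx_u : μx u = 0 := by
    rw [hu]
    refine (mulPiece_piece wt I (1, 2) _ _ _ _ _ _
      (homog_monomial' 1 2 0 1 _ _ (by omega) (by omega))).trans ?_
    rw [monomial_mul_ex]
    simpa using p220
  have μx_v : μx v = e := by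
    rw [hv, he]
    refine (mulPiece_piece wt I (1, 2) _ _ _ _ _ _
      (homog_monomial' 0 1 1 1 _ _ (by omega) (by omega))).trans ?_
    rw [monomial_mul_ex]
    simp
  have μz_u : μz u = μy e := by
    rw [hu, he]
    refine (mulPiece_piece wt I (1, 2) _ _ _ _ _ _
      (homog_monomial' 1 2 0 1 _ _ (by omega) (by omega))).trans ?_
    refine Eq.trans ?_ (mulPiece_piece wt I (2, 2) _ _ _ _ _ _
      (homog_monomial' 1 1 1 1 _ _ (by omega) (by omega))).symm
    rw [monomial_mul_ex, monomial_mul_ex]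
  have μz_v : μz v = μy f := by
    rw [hv, hf]
    refine (mulPiece_piece wt I (1, 2) _ _ _ _ _ _
      (homog_monomial' 0 1 1 1 _ _ (by omega) (by omega))).trans ?_
    refine Eq.trans ?_ (mulPiece_piece wt I (2, 2) _ _ _ _ _ _
      (homog_monomial' 0 0 2 1 _ _ (by omega) (by omega))).symm
    rw [monomial_mul_ex, monomial_mul_ex]
  have μy_surj : Function.Surjective μy := by
    rw [← LinearMap.range_eq_top]
    apply span_of_monomials
    intro d hd
    rw [weight_wt, Prod.mk.injEq] at hd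
    obtain ⟨j', hj'⟩ := Nat.exists_eq_add_of_le' (show 1 ≤ d 1 by omega)
    refine ⟨piece wt I (2, 2) (monomial (ex (d 0) j' (d 2)) 1), ?_⟩
    refine (mulPiece_piece wt I (2, 2) _ _ _ _ _ _
      (homog_monomial' _ _ _ 1 _ _ (by omega) (by omega))).trans ?_
    rw [monomial_mul_ex]
    conv_rhs => rw [ex_eq d, hj']
    rw [zero_add, zero_add, mul_one, add_comm 1 j']
  obtain ⟨f1, f2, f3⟩ := hP
  obtain ⟨g1, g2, g3⟩ := hP'
  obtain ⟨k1, k2, k3⟩ := hP''
  have μy_bij : Function.Bijective μy :=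
    Module.bijective_of_surjective_of_rankAtStalk_eq μy_surj (fun m hm => by rw [g3, k3])
  let ey : GradedPiece wt I (2, 2) ≃ₗ[R] GradedPiece wt I (2, 3) :=
    LinearEquiv.ofBijective μy μy_bij
  let ψ : GradedPiece wt I (1, 2) →ₗ[R] GradedPiece wt I (2, 2) := ey.symm.toLinearMap.comp μz
  have ψ_u : ψ u = e := by
    change ey.symm (μz u) = e
    rw [μz_u]
    exact ey.symm_apply_apply e
  have ψ_v : ψ v = f := by
    change ey.symm (μz v) = f
    rw [μz_v]
    exact ey.symm_apply_apply f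
  have ψ_surj : Function.Surjective ψ := by
    rw [← LinearMap.range_eq_top, eq_top_iff, ← span_ef, Submodule.span_le]
    rintro x (rfl | hx)
    · exact ⟨u, ψ_u⟩
    · rw [Set.mem_singleton_iff] at hx
      rw [hx]
      exact ⟨v, ψ_v⟩
  have ψ_bij : Function.Bijective ψ :=
    Module.bijective_of_surjective_of_rankAtStalk_eq ψ_surj (fun m hm => by rw [f3, g3])
  let eψ : GradedPiece wt I (1, 2) ≃ₗ[R] GradedPiece wt I (2, 2) :=
    LinearEquiv.ofBijective ψ ψ_bij
  let T : GradedPiece wt I (1, 2) →ₗ[R] GradedPiece wt I (1, 2) := eψ.symm.toLinearMap.comp μx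
  have T_u : T u = 0 := by
    change eψ.symm (μx u) = 0
    rw [μx_u, map_zero]
  have T_v : T v = u := by
    change eψ.symm (μx v) = u
    rw [μx_v, LinearEquiv.symm_apply_eq]
    exact ψ_u.symm
  obtain ⟨t, ht, hut⟩ := rank_one_key ⟨f1, f2, f3⟩ T u v span_uv T_u T_v
  have hb : (-t) * (-t) = 0 := by rw [neg_mul_neg, ht]
  have huv : u + (-t) • v = 0 := by rw [hut, neg_smul, add_neg_cancel]
  have hef : e + (-t) • f = 0 := by
    rw [← ψ_u, ← ψ_v, ← map_smul, ← map_add, huv, map_zero]
  refine ⟨-t, hb, (eq_of_le_of_isHilbertPoint wt (Ib_isHilbertPoint (-t) hb) hI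
    (Ib_le I (-t) hb (m200 0 0) ?_ ?_ m102 m003)).symm⟩
  · rw [← piece_eq_zero_iff_of_homog wt I (1, 2)]
    · rw [gF, map_add, ← huv, hu, hv, ← map_smul, smul_monomial, smul_eq_mul, mul_one]
    · exact (homog_monomial' 1 2 0 1 _ _ (by omega) (by omega)).add
        (homog_monomial' 0 1 1 _ _ _ (by omega) (by omega))
  · rw [← piece_eq_zero_iff_of_homog wt I (2, 2)]
    · rw [gG, map_add, ← hef, he, hf, ← map_smul, smul_monomial, smul_eq_mul, mul_one]
    · exact (homog_monomial' 1 1 1 1 _ _ (by omega) (by omega)).add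
        (homog_monomial' 0 0 2 _ _ _ (by omega) (by omega))

theorem eq_Ib_of_gF_mem {I : Ideal (MvPolynomial (Fin 3) R)}
    (hI : IsHilbertPoint wt hilb I) {b : R} (hb : b * b = 0) (h : gF b ∈ I) : I = Ib b hb := by
  obtain ⟨b', hb', rfl⟩ := exists_of_isHilbertPoint I hI
  obtain rfl := eq_of_gF_mem h
  rfl

end Example

section Cat

open CategoryTheory Opposite AlgebraicGeometry Limits

/-- A morphism of schemes through which every morphism from an affine scheme factors
uniquely is an isomorphism. -/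
lemma isIso_of_affine_lift {Y X : Scheme.{u}} (f : Y ⟶ X)
    (h : ∀ (Z : Scheme.{u}) [IsAffine Z] (g : Z ⟶ X), ∃! l : Z ⟶ Y, l ≫ f = g) :
    IsIso f := by
  -- uniqueness for arbitrary sources
  have uniq : ∀ (Z : Scheme.{u}) (a b : Z ⟶ Y), a ≫ f = b ≫ f → a = b := by
    intro Z a b hab
    refine Scheme.Cover.hom_ext Z.affineCover a b (fun x => ?_)
    have : IsAffine (Z.affineCover.X x) := inferInstanceAs (IsAffine (Spec _))
    exact (h (Z.affineCover.X x) (Z.affineCover.f x ≫ a ≫ f)).unique (by simp) (by simp [hab])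
  have aff : ∀ x, IsAffine (X.affineCover.X x) := fun x => inferInstanceAs (IsAffine (Spec _))
  choose l hl hl' using fun x => h (X.affineCover.X x) (X.affineCover.f x)
  let s : X ⟶ Y := X.affineCover.glueMorphisms l (by
    intro x y
    apply uniq
    rw [Category.assoc, Category.assoc]
    rw [show l x ≫ f = X.affineCover.f x from hl x, show l y ≫ f = X.affineCover.f y from hl y]
    exact pullback.condition)
  have hs : s ≫ f = 𝟙 X := by
    refine Scheme.Cover.hom_ext X.affineCover _ _ (fun x => ?_)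
    rw [← Category.assoc, Scheme.Cover.ι_glueMorphisms, Category.comp_id]
    exact hl x
  exact ⟨s, uniq _ _ _ (by rw [Category.assoc, hs, Category.comp_id, Category.id_comp]), hs⟩

variable (k : Type u) [Field k]

/-- uniqueness -/
lemma iso_of_functor_iso (B : CommAlgCat.{u} k) (X : Over (Spec (CommRingCat.of k)))
    (α : (algSpec (CommRingCat.of k)).rightOp ⋙ yoneda.obj X ≅
      (algSpec (CommRingCat.of k)).rightOp ⋙
        yoneda.obj ((algSpec (CommRingCat.of k)).obj (op B))) :
    Nonempty (X ≅ (algSpec (CommRingCat.of k)).obj (op B)) := by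
  have full : (algSpec (CommRingCat.of k)).Full := algSpec.fullyFaithful.full
  let Y := (algSpec (CommRingCat.of k)).obj (op B)
  let y0 : Y ⟶ X := (α.inv.app B) (𝟙 Y)
  have key : ∀ (R : CommAlgCat.{u} k) (g : (algSpec (CommRingCat.of k)).obj (op R) ⟶ Y),
      (α.inv.app R) g = g ≫ y0 := by
    intro R g
    obtain ⟨g', rfl⟩ := (algSpec (CommRingCat.of k)).map_surjective g
    have := ConcreteCategory.congr_hom (α.inv.naturality g'.unop) (𝟙 Y)
    simp at this
    exact this
  have bij : ∀ (R : CommAlgCat.{u} k),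
      Function.Bijective (fun g : (algSpec (CommRingCat.of k)).obj (op R) ⟶ Y => g ≫ y0) := by
    intro R
    have : (fun g : (algSpec (CommRingCat.of k)).obj (op R) ⟶ Y => g ≫ y0) =
        (α.inv.app R) := by
      funext g; exact (key R g).symm
    rw [this]
    exact (isIso_iff_bijective (α.inv.app R)).1 inferInstance
  have hiso : IsIso y0.left := by
    apply isIso_of_affine_lift
    intro Z hZ g
    -- make `Z` into a `k`-algebra spectrum
    let φ : CommRingCat.of k ⟶ Γ(Z, ⊤) := Spec.preimage (Z.isoSpec.inv ≫ g ≫ X.hom)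
    let R : CommAlgCat.{u} k := @CommAlgCat.of k _ Γ(Z, ⊤) _ φ.hom.toAlgebra
    let e : Over.mk (g ≫ X.hom) ≅ (algSpec (CommRingCat.of k)).obj (op R) :=
      Over.isoMk Z.isoSpec (by
        change Z.isoSpec.hom ≫ Spec.map φ = g ≫ X.hom
        rw [Spec.map_preimage, Iso.hom_inv_id_assoc])
    let g' : Over.mk (g ≫ X.hom) ⟶ X := Over.homMk g
    obtain ⟨l', hl'⟩ := (bij R).2 (e.inv ≫ g')
    refine ⟨(e.hom ≫ l').left, ?_, ?_⟩
    · have : (e.hom ≫ l' ≫ y0).left = g := by
        rw [show l' ≫ y0 = e.inv ≫ g' from hl', Iso.hom_inv_id_assoc]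
        rfl
      simpa using this
    · intro l1 hl1
      let l1' : Over.mk (g ≫ X.hom) ⟶ Y := Over.homMk l1 (by
        rw [← Over.w y0, ← Category.assoc, show l1 ≫ y0.left = g from hl1]
        rfl)
      have : e.inv ≫ l1' = l' := by
        apply (bij R).1
        change (e.inv ≫ l1') ≫ y0 = l' ≫ y0
        rw [show l' ≫ y0 = e.inv ≫ g' from hl', Category.assoc]
        congr 1
        ext1
        exact hl1
      rw [← this, Iso.hom_inv_id_assoc]
      rfl
  have : IsIso y0 := by
    have : IsIso ((Over.forget _).map y0) := hiso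
    exact isIso_of_reflects_iso y0 (Over.forget _)
  exact ⟨(asIso y0).symm⟩

end Cat

section Functor

open CategoryTheory Opposite AlgebraicGeometry Limits

variable (k : Type u) [Field k]

/-- algebra homs out of dual numbers -/
noncomputable def dualHomEquiv (R : Type u) [CommRing R] [Algebra k R] :
    (DualNumber k →ₐ[k] R) ≃ {b : R // b * b = 0} where
  toFun f := ⟨f DualNumber.eps, by rw [← map_mul, DualNumber.eps_mul_eps, map_zero]⟩
  invFun b := DualNumber.lift ⟨(Algebra.ofId k R, b.1), b.2, fun _ => Commute.all _ _⟩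
  left_inv f := by
    apply DualNumber.algHom_ext
    simp
  right_inv b := by
    ext
    simp


/-- points of the multigraded Hilbert functor are square-zero elements -/
noncomputable def pointEquiv (R : Type u) [CommRing R] :
    {b : R // b * b = 0} ≃ {I : Ideal (MvPolynomial (Fin 3) R) // IsHilbertPoint wt hilb I} :=
  Equiv.ofBijective (fun b => ⟨Ib b.1 b.2, Ib_isHilbertPoint b.1 b.2⟩) (by
    constructor
    · rintro ⟨b, hb⟩ ⟨b', hb'⟩ h
      have h' : Ib b hb = Ib b' hb' := congrArg Subtype.val h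
      have := gF_mem b hb
      rw [h'] at this
      exact Subtype.ext (eq_of_gF_mem this)
    · rintro ⟨I, hI⟩
      obtain ⟨b, hb, rfl⟩ := exists_of_isHilbertPoint I hI
      exact ⟨⟨b, hb⟩, rfl⟩)

lemma pointEquiv_map {R R' : Type u} [CommRing R] [CommRing R'] (f : R →+* R') (b : R)
    (hb : b * b = 0) (hb' : f b * f b = 0) :
    (Ib b hb).map (MvPolynomial.map f) = Ib (f b) hb' := by
  apply eq_Ib_of_gF_mem ((Ib_isHilbertPoint b hb).map f) hb'
  have : gF (f b) = MvPolynomial.map f (gF b) := by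
    simp [gF, MvPolynomial.map_monomial]
  rw [this]
  exact Ideal.mem_map_of_mem _ (gF_mem b hb)

lemma Ib_congr {R : Type u} [CommRing R] {b b' : R} (hb : b * b = 0) (hb' : b' * b' = 0)
    (h : b = b') : Ib b hb = Ib b' hb' := by
  subst h; rfl

/-- the bijection on points -/
noncomputable def compEquiv (R : CommAlgCat.{u} k) :
    ((algSpec (CommRingCat.of k)).obj (op R) ⟶ specDual k) ≃
      {I : Ideal (MvPolynomial (Fin 3) R) // IsHilbertPoint wt hilb I} :=
  ((algSpec.fullyFaithful (R := CommRingCat.of k)).homEquiv (X := op R)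
      (Y := op (CommAlgCat.of k (DualNumber k)))).symm.trans
      ((opEquiv _ _).trans
      (({ toFun := fun g => g.hom
          invFun := fun g => CommAlgCat.ofHom g
          left_inv := fun _ => rfl
          right_inv := fun _ => rfl } :
            (CommAlgCat.of k (DualNumber k) ⟶ R) ≃ (DualNumber k →ₐ[k] R)).trans
      ((dualHomEquiv k R).trans (pointEquiv R))))

lemma compEquiv_map (R : CommAlgCat.{u} k) (g : CommAlgCat.of k (DualNumber k) ⟶ R)
    (h : (g.hom DualNumber.eps : R) * g.hom DualNumber.eps = 0) :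
    (compEquiv k R ((algSpec (CommRingCat.of k)).map g.op)).1 =
      Ib (g.hom DualNumber.eps : R) h := by
  have h1 : (algSpec.fullyFaithful (R := CommRingCat.of k)).preimage
        ((algSpec (CommRingCat.of k)).map g.op) = g.op :=
    (algSpec.fullyFaithful (R := CommRingCat.of k)).preimage_map g.op
  change Ib ((((algSpec.fullyFaithful (R := CommRingCat.of k)).preimage
        ((algSpec (CommRingCat.of k)).map g.op)).unop).hom DualNumber.eps)
        (by rw [← map_mul, DualNumber.eps_mul_eps, map_zero]) = _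
  apply Ib_congr
  rw [h1]
  rfl

/-- the representability isomorphism -/
noncomputable def representingIso :
    (algSpec (CommRingCat.of k)).rightOp ⋙ yoneda.obj (specDual k) ≅
      hilbertFunctor k wt hilb :=
  NatIso.ofComponents (fun R => Equiv.toIso (compEquiv k R)) (by
    intro R R' f
    refine ConcreteCategory.hom_ext _ _ fun g => Subtype.ext ?_
    have full : (algSpec (CommRingCat.of k)).Full := algSpec.fullyFaithful.full
    obtain ⟨g', rfl⟩ := (algSpec (CommRingCat.of k)).map_surjective g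
    have e0 : (g'.unop.hom DualNumber.eps : R) * g'.unop.hom DualNumber.eps = 0 := by
      rw [← map_mul, DualNumber.eps_mul_eps, map_zero]
    have e1 : ((g'.unop ≫ f).hom DualNumber.eps : R') * (g'.unop ≫ f).hom DualNumber.eps = 0 := by
      rw [← map_mul, DualNumber.eps_mul_eps, map_zero]
    change (compEquiv k R' ((algSpec (CommRingCat.of k)).map f.op ≫
      (algSpec (CommRingCat.of k)).map g')).1 =
      (compEquiv k R ((algSpec (CommRingCat.of k)).map g')).1.map
        (MvPolynomial.map (f.hom : R →+* R'))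
    have h2 : (algSpec (CommRingCat.of k)).map f.op ≫ (algSpec (CommRingCat.of k)).map g' =
        (algSpec (CommRingCat.of k)).map (g'.unop ≫ f).op := by
      rw [← Functor.map_comp]; rfl
    rw [h2, compEquiv_map k R' (g'.unop ≫ f) e1]
    have h3 := compEquiv_map k R g'.unop e0
    rw [show (algSpec (CommRingCat.of k)).map g' = (algSpec (CommRingCat.of k)).map
      g'.unop.op from rfl, h3]
    rw [pointEquiv_map (f.hom : R →+* R') _ e0 (by
      rw [← map_mul, e0, map_zero])]
    apply Ib_congr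
    rfl)

end Functor


section Final

open CategoryTheory Opposite AlgebraicGeometry Limits

variable (k : Type u) [Field k]

lemma dual_local : IsLocalRing (DualNumber k) := inferInstance

lemma dual_artinian : IsArtinianRing (DualNumber k) := by
  have : Module.Finite k (DualNumber k) := inferInstanceAs (Module.Finite k (k × k))
  exact IsArtinianRing.of_finite k (DualNumber k)

lemma dual_not_isField : ¬ IsField (DualNumber k) := by
  intro h
  have h1 : (DualNumber.eps : DualNumber k) ≠ 0 := by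
    intro h0
    have := congrArg TrivSqZeroExt.snd h0
    simp at this
  obtain ⟨b, hb⟩ := h.mul_inv_cancel h1
  have h2 : (DualNumber.eps : DualNumber k) * (DualNumber.eps * b) = 0 := by
    rw [← mul_assoc, DualNumber.eps_mul_eps, zero_mul]
  rw [hb, mul_one] at h2
  exact h1 h2

lemma specDual_isFatPoint (Y : Over (Spec (CommRingCat.of k))) (e : Nonempty (Y ≅ specDual k)) :
    IsFatPoint k Y :=
  ⟨CommAlgCat.of k (DualNumber k), dual_local k, dual_artinian k, dual_not_isField k, e⟩

lemma connected_of_iso (X : Over (Spec (CommRingCat.of k))) (e : Nonempty (X ≅ specDual k)) :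
    ConnectedSpace X.left := by
  obtain ⟨e⟩ := e
  have : IsArtinianRing (DualNumber k) := dual_artinian k
  have : Unique (PrimeSpectrum (DualNumber k)) := inferInstance
  have h : ConnectedSpace (PrimeSpectrum (DualNumber k)) := inferInstance
  have h' : ConnectedSpace (specDual k).left := h
  have e' : (specDual k).left ≅ X.left := (Over.forget _).mapIso e.symm
  exact e'.hom.homeomorph.connectedSpace_iff.mp h'

end Final

end Pool.Agent.Lib.MP_94ed3e_ag
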